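import Pool.Agent.Helper51.Bil.TRANS
import Pool.Agent.Helper67.Bil.Leg

/-!
# From the raw launcher to the half launcher

Piece LAUNCH2 of the MP_190632_an development: Legendrian propagation, transport of the fronts
and of the second mirror, laws of reflection.
-/

set_option autoImplicit false

namespace Pool.Agent.Helper58.Bil

open Real Set Filter Topology

namespace LAUNCH2

theorem Good.cda {f : ℝ → ℝ} {b c : ℝ} (h : Good f b c) {x : ℝ} (hx : x < b) :
    ContDiffAt ℝ ((⊤ : ℕ∞) : WithTop ℕ∞) f x :=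
  h.sm.contDiffAt (Iio_mem_nhds hx)

theorem Good.diff {f : ℝ → ℝ} {b c : ℝ} (h : Good f b c) {x : ℝ} (hx : x < b) :
    DifferentiableAt ℝ f x :=
  (Good.cda h hx).differentiableAt (by simp)

theorem Good.hda {f : ℝ → ℝ} {b c : ℝ} (h : Good f b c) {x : ℝ} (hx : x < b) :
    HasDerivAt f (deriv f x) x := (Good.diff h hx).hasDerivAt

theorem Good.diff2 {f : ℝ → ℝ} {b c : ℝ} (h : Good f b c) {x : ℝ} (hx : x < b) :
    DifferentiableAt ℝ (deriv f) x := by
  have h1 : ContDiffOn ℝ 1 (deriv f) (Iio b) := h.sm.deriv_of_isOpen isOpen_Iio (by norm_cast)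
  exact (h1.contDiffAt (Iio_mem_nhds hx)).differentiableAt (by simp)

theorem Good.mono {f : ℝ → ℝ} {b b' c c' : ℝ} (h : Good f b c) (hb : b' ≤ b) (hc : c ≤ c') :
    Good f b' c' where
  sm := h.sm.mono (Iio_subset_Iio hb)
  zero := h.zero
  small := by
    intro y hy
    obtain ⟨h1, h2, h3⟩ := h.small y (lt_of_lt_of_le hy hb)
    exact ⟨h1.trans hc, h2.trans hc, h3.trans hc⟩

theorem Good.add {f g : ℝ → ℝ} {b c c' : ℝ} (hf : Good f b c) (hg : Good g b c') :
    Good (fun x => f x + g x) b (c + c') where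
  sm := hf.sm.add hg.sm
  zero := fun y hy => by simp [hf.zero y hy, hg.zero y hy]
  small := by
    intro y hy
    have hy' : y < b := hy
    obtain ⟨h1, h2, h3⟩ := hf.small y hy
    obtain ⟨k1, k2, k3⟩ := hg.small y hy
    have e1 : ∀ z < b, deriv (fun x => f x + g x) z = deriv f z + deriv g z := fun z hz =>
      deriv_fun_add (Good.diff hf hz) (Good.diff hg hz)
    have e2 : deriv (deriv (fun x => f x + g x)) y = deriv (deriv f) y + deriv (deriv g) y := by
      rw [← deriv_fun_add (Good.diff2 hf hy') (Good.diff2 hg hy')]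
      refine Filter.EventuallyEq.deriv_eq ?_
      filter_upwards [Iio_mem_nhds hy'] with z hz using e1 z hz
    refine ⟨(abs_add_le _ _).trans (add_le_add h1 k1), ?_, ?_⟩
    · rw [e1 y hy']
      exact (abs_add_le _ _).trans (add_le_add h2 k2)
    · rw [e2]
      exact (abs_add_le _ _).trans (add_le_add h3 k3)

theorem Good.deriv_nonpos {f : ℝ → ℝ} {b c : ℝ} (h : Good f b c) {y : ℝ} (hb : 0 < b)
    (hy : y ≤ 0) : deriv f y = 0 := by
  have h1 : HasDerivWithinAt f (deriv f y) (Iic y) y :=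
    (Good.hda h (lt_of_le_of_lt hy hb)).hasDerivWithinAt
  have h2 : HasDerivWithinAt f 0 (Iic y) y := by
    refine (hasDerivWithinAt_const y (Iic y) (0 : ℝ)).congr (fun z hz => ?_) ?_
    · exact h.zero z (le_trans hz hy)
    · exact h.zero y hy
  exact UniqueDiffWithinAt.eq_deriv (Iic y) (uniqueDiffOn_Iic y y self_mem_Iic) h1 h2

/-- `x + g x` is strictly increasing -/
theorem Good.mono_add {g : ℝ → ℝ} {b c : ℝ} (h : Good g b c) (hc : c < 1) {x y : ℝ} (hxy : x < y)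
    (hy : y < b) : x + g x < y + g y := by
  have hmono : StrictMonoOn (fun x => x + g x) (Iio b) := by
    refine strictMonoOn_of_deriv_pos (convex_Iio b) ?_ ?_
    · intro z hz
      exact (continuousAt_id.add (Good.diff h hz).continuousAt).continuousWithinAt
    · intro z hz
      rw [interior_Iio] at hz
      have h1 : deriv (fun x => x + g x) z = 1 + deriv g z :=
        ((hasDerivAt_id z).add (Good.hda h hz)).deriv
      rw [h1]
      have := (abs_le.mp (h.small z hz).2.1).1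
      linarith
  exact hmono (hxy.trans hy) hy hxy


section Raw

variable {α c ε : ℝ} {f1 w1 c1 c2 c3 c4 kA kS v2 w2 : ℝ → ℝ}

theorem chi_cont : Continuous chi := by
  unfold chi
  exact Real.smoothTransition.continuous.comp (continuous_const.mul continuous_id)

theorem chi_nonpos {y : ℝ} (hy : y ≤ 0) : chi y = 0 := by
  unfold chi
  exact Real.smoothTransition.zero_of_nonpos (by linarith)

/-- the return map on mirror 1 -/
def ret (c1 c2 c3 c4 : ℝ → ℝ) (x : ℝ) : ℝ := x + (c1 x + c2 x + c3 x + c4 x)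

theorem ret_eq (c1 c2 c3 c4 : ℝ → ℝ) (x : ℝ) :
    ret c1 c2 c3 c4 x = x + c1 x + c2 x + c3 x + c4 x := by
  unfold ret; ring

theorem abs_le_of (R : Raw α c ε f1 w1 c1 c2 c3 c4 kA kS v2 w2) {x : ℝ} (hx : x < 1 / 5) :
    |c1 x| ≤ c ∧ |c2 x| ≤ c ∧ |c3 x| ≤ c ∧ |c4 x| ≤ c :=
  ⟨(R.gc1.small x hx).1, (R.gc2.small x hx).1, (R.gc3.small x hx).1, (R.gc4.small x hx).1⟩

/-- fast propagation of the Legendrian property -/
theorem fast (R : Raw α c ε f1 w1 c1 c2 c3 c4 kA kS v2 w2) (h1 : π / 4 < α)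
    (h3 : c < al2 α) {x : ℝ} (hx : x ∈ Ioo (0 : ℝ) (1 / 5))
    (hw : deriv f1 x = w1 x) : deriv v2 x = w2 x * (1 + deriv c1 x + deriv c2 x) := by
  have hc1 := Good.hda R.gc1 hx.2
  have hc2 := Good.hda R.gc2 hx.2
  have hnh : Ioo (0:ℝ) (1/5) ∈ 𝓝 x := Ioo_mem_nhds hx.1 hx.2
  have hb := abs_le_of R hx.2
  have hpi := Real.pi_gt_three
  have hal : al2 α < π / 4 := by unfold al2; linarith
  refine leg (σ := -1) (α := α) (α' := al2 α) (x₀ := x) (δ := fun y => ε * chi y)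
    (m := fun x => x) (d := fun x => α + c1 x) (E := fun x => 1 / cos α + f1 x) (E1 := w1)
    (k := kA) (n := fun x => x + c1 x + c2 x) (d' := fun x => al2 α + c2 x)
    (E2 := fun x => 1 / cos (al2 α) + v2 x) (E21 := w2) (m₁ := 1) (d₁ := deriv c1 x)
    (n₁ := 1 + deriv c1 x + deriv c2 x) (d₁' := deriv c2 x)
    (continuous_const.mul chi_cont) (hasDerivAt_id' x) (hc1.const_add α)
    (((hasDerivAt_id' x).add hc1).add hc2) (hc2.const_add _)
    ((Good.hda R.gv2 hx.2).const_add _) ?_ ?_ ?_ ?_ ?_ ?_ ?_ ?_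
  · rw [mul_one, ← hw]
    exact (Good.hda R.g1 hx.2).const_add _
  · refine (Real.sin_pos_of_pos_of_lt_pi ?_ ?_).ne'
    · linarith [(abs_le.mp hb.2.1).1]
    · linarith [(abs_le.mp hb.2.1).2]
  · filter_upwards [hnh] with y hy
    have e : y - (α + c1 y - α) = y - c1 y := by ring
    rw [e]
    linarith [R.R1 y hy]
  · filter_upwards [hnh] with y hy
    exact R.R2 y hy
  · filter_upwards [hnh] with y hy
    exact R.R3 y hy
  · filter_upwards [hnh] with y hy
    have e : y + c1 y + c2 y + (al2 α + c2 y - al2 α) = y + c1 y + 2 * c2 y := by ring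
    rw [e]
    linarith [R.R4 y hy]
  · filter_upwards [hnh] with y hy
    ring
  · filter_upwards [hnh] with y hy
    have e : y + c1 y + c2 y + (al2 α + c2 y - al2 α) = y + c1 y + 2 * c2 y := by ring
    have e' : y - (α + c1 y - α) = y - c1 y := by ring
    rw [e, e']
    linarith [R.R5 y hy]

theorem ret_hda (R : Raw α c ε f1 w1 c1 c2 c3 c4 kA kS v2 w2) {x : ℝ} (hx : x < 1 / 5) :
    HasDerivAt (fun x => x + c1 x + c2 x + c3 x + c4 x)
      (1 + deriv c1 x + deriv c2 x + deriv c3 x + deriv c4 x) x :=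
  (((((hasDerivAt_id' x).add (Good.hda R.gc1 hx)).add (Good.hda R.gc2 hx)).add
    (Good.hda R.gc3 hx)).add (Good.hda R.gc4 hx))

theorem ret_lt (R : Raw α c ε f1 w1 c1 c2 c3 c4 kA kS v2 w2) {x : ℝ}
    (hx : x ∈ Ioo (0 : ℝ) (1 / 5)) : x + c1 x + c2 x + c3 x + c4 x < x := by
  linarith [R.left x hx]

theorem ret_pos (R : Raw α c ε f1 w1 c1 c2 c3 c4 kA kS v2 w2) {x : ℝ}
    (hx : x ∈ Ioo (0 : ℝ) (1 / 5)) : 0 < x + c1 x + c2 x + c3 x + c4 x := by
  obtain ⟨a1, a2, a3, a4⟩ := R.sgn x hx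
  have := hx.1
  linarith [(abs_le.mp a1).1, (abs_le.mp a2).1, (abs_le.mp a3).1, (abs_le.mp a4).1]

/-- slow propagation of the Legendrian property -/
theorem slow (R : Raw α c ε f1 w1 c1 c2 c3 c4 kA kS v2 w2) (h1 : π / 4 < α) (h2 : α < π / 2)
    (hc' : c ≤ 1 / 10000) {x : ℝ} (hx : x ∈ Ioo (0 : ℝ) (1 / 5))
    (hw : deriv v2 x = w2 x * (1 + deriv c1 x + deriv c2 x)) :
    deriv f1 (x + c1 x + c2 x + c3 x + c4 x) = w1 (x + c1 x + c2 x + c3 x + c4 x) := by
  have hc1 := Good.hda R.gc1 hx.2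
  have hc2 := Good.hda R.gc2 hx.2
  have hc3 := Good.hda R.gc3 hx.2
  have hc4 := Good.hda R.gc4 hx.2
  have hnh : Ioo (0:ℝ) (1/5) ∈ 𝓝 x := Ioo_mem_nhds hx.1 hx.2
  have hb := abs_le_of R hx.2
  have hpi := Real.pi_gt_three
  have hlt := (ret_lt R hx).trans hx.2
  have hF := ret_hda R hx.2
  have hcomp : HasDerivAt (fun x => 1 / cos α + f1 (x + c1 x + c2 x + c3 x + c4 x))
      (deriv f1 (x + c1 x + c2 x + c3 x + c4 x)
        * (1 + deriv c1 x + deriv c2 x + deriv c3 x + deriv c4 x)) x :=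
    ((Good.hda R.g1 hlt).comp x hF).const_add _
  have key := leg (σ := 1) (α := al2 α) (α' := α) (x₀ := x) (δ := fun y => ε * chi y)
    (m := fun x => x + c1 x + c2 x) (d := fun x => al2 α + c3 x)
    (E := fun x => 1 / cos (al2 α) + v2 x) (E1 := w2)
    (k := kS) (n := fun x => x + c1 x + c2 x + c3 x + c4 x) (d' := fun x => α + c4 x)
    (E2 := fun x => 1 / cos α + f1 (x + c1 x + c2 x + c3 x + c4 x))
    (E21 := fun x => w1 (x + c1 x + c2 x + c3 x + c4 x)) (m₁ := 1 + deriv c1 x + deriv c2 x)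
    (d₁ := deriv c3 x)
    (n₁ := 1 + deriv c1 x + deriv c2 x + deriv c3 x + deriv c4 x) (d₁' := deriv c4 x)
    (continuous_const.mul chi_cont) (((hasDerivAt_id' x).add hc1).add hc2) (hc3.const_add _)
    hF (hc4.const_add _) hcomp ?_ ?_ ?_ ?_ ?_ ?_ ?_ ?_
  · have hne : (1 + deriv c1 x + deriv c2 x + deriv c3 x + deriv c4 x) ≠ 0 := by
      have a1 := (abs_le.mp (R.gc1.small x hx.2).2.1).1
      have a2 := (abs_le.mp (R.gc2.small x hx.2).2.1).1
      have a3 := (abs_le.mp (R.gc3.small x hx.2).2.1).1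
      have a4 := (abs_le.mp (R.gc4.small x hx.2).2.1).1
      have : 0 < 1 + deriv c1 x + deriv c2 x + deriv c3 x + deriv c4 x := by linarith
      exact this.ne'
    exact mul_right_cancel₀ hne key
  · rw [← hw]
    exact (Good.hda R.gv2 hx.2).const_add _
  · refine (Real.sin_pos_of_pos_of_lt_pi ?_ ?_).ne'
    · linarith [(abs_le.mp hb.2.2.2).1]
    · linarith [(abs_le.mp hb.2.2.2).2]
  · filter_upwards [hnh] with y hy
    have e : y + c1 y + c2 y - (al2 α + c3 y - al2 α) = y + c1 y + c2 y - c3 y := by ring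
    rw [e]
    linarith [R.S1 y hy]
  · filter_upwards [hnh] with y hy
    exact R.S2 y hy
  · filter_upwards [hnh] with y hy
    exact R.S3 y hy
  · filter_upwards [hnh] with y hy
    have e : y + c1 y + c2 y + c3 y + c4 y + (α + c4 y - α)
      = y + c1 y + c2 y + c3 y + 2 * c4 y := by ring
    rw [e]
    linarith [R.S4 y hy]
  · filter_upwards [hnh] with y hy
    ring
  · filter_upwards [hnh] with y hy
    have e : y + c1 y + c2 y + c3 y + c4 y + (α + c4 y - α)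
      = y + c1 y + c2 y + c3 y + 2 * c4 y := by ring
    have e' : y + c1 y + c2 y - (al2 α + c3 y - al2 α) = y + c1 y + c2 y - c3 y := by ring
    rw [e, e']
    linarith [R.S5 y hy]

/-- on the plateau -/
theorem leg_plat (R : Raw α c ε f1 w1 c1 c2 c3 c4 kA kS v2 w2) {x : ℝ}
    (hx : x ∈ Ico (3 / 20 : ℝ) (1 / 5)) : deriv f1 x = w1 x := by
  obtain ⟨e1, -, -, -, -, -, e2, -⟩ := R.plat x hx
  rw [e2]
  have h1 : HasDerivWithinAt f1 (deriv f1 x) (Ici x) x := (Good.hda R.g1 hx.2).hasDerivWithinAt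
  have h2 : HasDerivWithinAt f1 0 (Ici x) x := by
    refine (hasDerivWithinAt_const x (Ici x) (f1 (3 / 20))).congr_of_eventuallyEq ?_ e1
    filter_upwards [Ico_mem_nhdsGE hx.2] with z hz
    exact (R.plat z ⟨hx.1.trans hz.1, hz.2⟩).1
  exact UniqueDiffWithinAt.eq_deriv (Ici x) (uniqueDiffOn_Ici x x self_mem_Ici) h1 h2

/-- existence of preimages under the return map -/
theorem exists_ret (R : Raw α c ε f1 w1 c1 c2 c3 c4 kA kS v2 w2) (hc : 0 < c)
    (hc' : c ≤ 1 / 10000) {y : ℝ} (hy : y < 19 / 100) (hy0 : 0 < y) :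
    ∃ x ∈ Ioo (0 : ℝ) (1 / 5), x + c1 x + c2 x + c3 x + c4 x = y := by
  have hg : Good (fun x => c1 x + c2 x + c3 x + c4 x) (1 / 5) (4 * c) :=
    Good.mono (Good.add (Good.add (Good.add R.gc1 R.gc2) R.gc3) R.gc4) le_rfl (by linarith)
  obtain ⟨F, -, -, h⟩ := trans_fun (by linarith) hg (Good.mono R.g1 le_rfl (by linarith))
  obtain ⟨x, hx, hxy, hx0⟩ := h y hy
  refine ⟨x, ⟨hx0 hy0, hx⟩, ?_⟩
  rw [← hxy]
  ring

theorem ret_mono (R : Raw α c ε f1 w1 c1 c2 c3 c4 kA kS v2 w2) (hc : 0 < c)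
    (hc' : c ≤ 1 / 10000) {x y : ℝ} (hxy : x < y) (hy : y < 1 / 5) :
    x + c1 x + c2 x + c3 x + c4 x < y + c1 y + c2 y + c3 y + c4 y := by
  have hg : Good (fun x => c1 x + c2 x + c3 x + c4 x) (1 / 5) (4 * c) :=
    Good.mono (Good.add (Good.add (Good.add R.gc1 R.gc2) R.gc3) R.gc4) le_rfl (by linarith)
  have := Good.mono_add hg (by linarith) hxy hy
  linarith

/-- the Legendrian property -/
theorem legendrian (R : Raw α c ε f1 w1 c1 c2 c3 c4 kA kS v2 w2) (h1 : π / 4 < α)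
    (h2 : α < π / 2) (hc : 0 < c) (hc' : c ≤ 1 / 10000) (h3 : c < al2 α) {x : ℝ}
    (hx : x ∈ Ioo (0 : ℝ) (1 / 5)) : deriv f1 x = w1 x := by
  by_contra hbad
  set B : Set ℝ := {y | y ∈ Ioo (0 : ℝ) (1 / 5) ∧ deriv f1 y ≠ w1 y} with hB
  have hBne : B.Nonempty := ⟨x, hx, hbad⟩
  have hB1 : ∀ y ∈ B, y < 3 / 20 := by
    intro y hy
    by_contra hge
    exact hy.2 (leg_plat R ⟨not_lt.mp hge, hy.1.2⟩)
  have hBbd : BddAbove B := ⟨3 / 20, fun y hy => (hB1 y hy).le⟩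
  set s := sSup B with hs
  have hs1 : s ≤ 3 / 20 := csSup_le hBne fun y hy => (hB1 y hy).le
  have hs0 : 0 < s := lt_of_lt_of_le hx.1 (le_csSup hBbd ⟨hx, hbad⟩)
  have hsI : s ∈ Ioo (0 : ℝ) (1 / 5) := ⟨hs0, by linarith⟩
  obtain ⟨y, hyB, hy⟩ := exists_lt_of_lt_csSup hBne (ret_lt R hsI)
  obtain ⟨z, hz, hzy⟩ := exists_ret R hc hc' (y := y) (by linarith [hB1 y hyB]) hyB.1.1
  have hsz : s < z := by
    by_contra hle
    rw [not_lt] at hle
    rcases hle.lt_or_eq with hlt | heq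
    · have := ret_mono R hc hc' hlt hsI.2
      linarith
    · rw [heq] at hzy
      linarith
  have hzgood : deriv f1 z = w1 z := by
    by_contra hzb
    exact absurd (le_csSup hBbd (show z ∈ B from ⟨hz, hzb⟩)) (not_le.mpr hsz)
  have := slow R h1 h2 hc' hz (fast R h1 h3 hz hzgood)
  rw [hzy] at this
  exact hyB.2 this

end Raw

theorem law_nonpos {α : ℝ} {f I O : ℝ → ℝ} (hcos : cos α ≠ 0) {m : ℝ} (hf : f m = 0)
    (hf' : deriv f m = 0) (hI : I m = 0) (hO : O m = 0) : Law α f I O m α := by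
  unfold Law
  have e1 : m - α + α = m := by ring
  have e2 : m + α - α = m := by ring
  rw [e1, e2, hf, hf', hI, hO]
  constructor <;> field_simp <;> ring

theorem hlaw_of {α : ℝ} {f I O : ℝ → ℝ} (hcos : cos α ≠ 0) (hf : ∀ m ≤ 0, f m = 0)
    (hf' : ∀ m ≤ 0, deriv f m = 0) (hI : ∀ m ≤ 0, I m = 0) (hO : ∀ m ≤ 0, O m = 0)
    (h : ∀ m < 9 / 50, 0 < m → ∃ D, |D| ≤ 1 / 200 ∧ 0 ≤ m - D ∧ 0 ≤ m + D ∧
      1 + I (m - D) = (1 / cos α + f m) * cos (α + D) - deriv f m * sin (α + D) ∧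
      1 + O (m + D) = (1 / cos α + f m) * cos (α + D) + deriv f m * sin (α + D)) :
    HLaw α f I O := by
  intro m hm
  rcases le_or_gt m 0 with hm0 | hm0
  · refine ⟨α, by norm_num, fun h0 => ⟨by linarith, by linarith⟩, fun _ => rfl, ?_⟩
    exact law_nonpos hcos (hf m hm0) (hf' m hm0) (hI m hm0) (hO m hm0)
  · obtain ⟨D, hD, h1, h2, h3, h4⟩ := h m hm hm0
    refine ⟨α + D, by simpa using hD, fun _ => ⟨by linarith, by linarith⟩,
      fun h => absurd h (not_lt.mpr hm0.le), ?_, ?_⟩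
    · have e : m - (α + D) + α = m - D := by ring
      rw [e]
      exact h3
    · have e : m + (α + D) - α = m + D := by ring
      rw [e]
      exact h4

end LAUNCH2

open LAUNCH2

theorem launch2 {α : ℝ} (h1 : π / 4 < α) (h2 : α < π / 2) {c : ℝ} (hc : 0 < c) (hc' : c ≤ 1 / 10000)
    (h3 : c < al2 α)
    {ε : ℝ} {f1 w1 c1 c2 c3 c4 kA kS v2 w2 : ℝ → ℝ}
    (R : Raw α c ε f1 w1 c1 c2 c3 c4 kA kS v2 w2) :
    ∃ f2 A S : ℝ → ℝ, HalfL α (16 * c) ε f1 f2 A S := by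
  have hpi := Real.pi_gt_three
  have hcos : cos α ≠ 0 := (Real.cos_pos_of_mem_Ioo ⟨by linarith, h2⟩).ne'
  have hcos2 : cos (al2 α) ≠ 0 := by
    refine (Real.cos_pos_of_mem_Ioo ⟨?_, ?_⟩).ne' <;> unfold al2 <;> linarith
  have hleg : ∀ x ∈ Ioo (0 : ℝ) (1 / 5), deriv f1 x = w1 x := fun x hx =>
    legendrian R h1 h2 hc hc' h3 hx
  have hleg2 : ∀ x ∈ Ioo (0 : ℝ) (1 / 5), deriv v2 x = w2 x * (1 + deriv c1 x + deriv c2 x) :=
    fun x hx => fast R h1 h3 hx (hleg x hx)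
  have g12 : Good (fun x => c1 x + c2 x) (1 / 5) (2 * c) :=
    Good.mono (Good.add R.gc1 R.gc2) le_rfl (by linarith)
  have g123 : Good (fun x => c1 x + c2 x + c3 x) (1 / 5) (3 * c) :=
    Good.mono (Good.add (Good.add R.gc1 R.gc2) R.gc3) le_rfl (by linarith)
  obtain ⟨f2, hf2, hf2x, hf2e⟩ := trans_fun (by linarith) g12
    (Good.mono R.gv2 le_rfl (by linarith))
  obtain ⟨A, hA, hAx, hAe⟩ := trans_fun (by linarith) R.gc1 R.gkA
  obtain ⟨S, hS, hSx, hSe⟩ := trans_fun (by linarith) g123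
    (Good.mono R.gkS le_rfl (by linarith))
  -- second mirror
  have hf2d : ∀ x ∈ Ioo (0 : ℝ) (1 / 5), x + (c1 x + c2 x) < 19 / 100 →
      deriv f2 (x + (c1 x + c2 x)) = w2 x := by
    intro x hx hlt
    have e1 := (hf2x x hx.2 hlt).2
    have e2 : deriv (fun x => c1 x + c2 x) x = deriv c1 x + deriv c2 x :=
      deriv_fun_add (Good.diff R.gc1 hx.2) (Good.diff R.gc2 hx.2)
    rw [e2, hleg2 x hx, ← add_assoc] at e1
    have hne : 1 + deriv c1 x + deriv c2 x ≠ 0 := by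
      have a1 := (abs_le.mp (R.gc1.small x hx.2).2.1).1
      have a2 := (abs_le.mp (R.gc2.small x hx.2).2.1).1
      have : 0 < 1 + deriv c1 x + deriv c2 x := by linarith
      exact this.ne'
    rw [← add_assoc] at *
    exact mul_right_cancel₀ hne e1
  have hchi : ∀ m ≤ 0, ε * chi m = 0 := fun m hm => by rw [chi_nonpos hm, mul_zero]
  refine ⟨f2, A, S, R.εpos, Good.mono R.gchi (by norm_num) (by linarith),
    Good.mono R.g1 (by norm_num) (by linarith), Good.mono hf2 le_rfl (by linarith),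
    Good.mono hA le_rfl (by linarith), Good.mono hS le_rfl (by linarith), ?_, ?_, ?_, ?_, ?_⟩
  · -- plateau
    have key : ∀ y ∈ Ico (4 / 25 : ℝ) (19 / 100), f1 y = f1 (3 / 20) ∧ f2 y = v2 (3 / 20) ∧
        A y = -ε ∧ S y = ε := by
      intro y hy
      refine ⟨?_, ?_, ?_, ?_⟩
      · exact (R.plat y ⟨by linarith [hy.1], by linarith [hy.2]⟩).1
      · obtain ⟨x, hx, hxy, -⟩ := hf2e y hy.2
        obtain ⟨b1, b2, b3, b4⟩ := abs_le_of R hx
        have hx' : 3 / 20 ≤ x := by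
          linarith [(abs_le.mp b1).2, (abs_le.mp b2).2, hy.1]
        rw [← hxy, (hf2x x hx (by rw [hxy]; exact hy.2)).1]
        exact (R.plat x ⟨hx', hx⟩).2.2.2.2.2.1
      · obtain ⟨x, hx, hxy, -⟩ := hAe y hy.2
        obtain ⟨b1, b2, b3, b4⟩ := abs_le_of R hx
        have hx' : 3 / 20 ≤ x := by
          linarith [(abs_le.mp b1).2, hy.1]
        rw [← hxy, (hAx x hx (by rw [hxy]; exact hy.2)).1]
        exact (R.plat x ⟨hx', hx⟩).2.2.2.2.2.2.2.1
      · obtain ⟨x, hx, hxy, -⟩ := hSe y hy.2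
        obtain ⟨b1, b2, b3, b4⟩ := abs_le_of R hx
        have hx' : 3 / 20 ≤ x := by
          linarith [(abs_le.mp b1).2, (abs_le.mp b2).2, (abs_le.mp b3).2, hy.1]
        rw [← hxy, (hSx x hx (by rw [hxy]; exact hy.2)).1]
        exact (R.plat x ⟨hx', hx⟩).2.2.2.2.2.2.2.2
    intro y hy
    obtain ⟨k1, k2, k3, k4⟩ := key y hy
    obtain ⟨l1, l2, -, -⟩ := key (4 / 25) ⟨le_rfl, by norm_num⟩
    exact ⟨k1.trans l1.symm, k2.trans l2.symm, k3, k4⟩
  · -- fast1
    refine hlaw_of hcos R.g1.zero (fun m hm => Good.deriv_nonpos R.g1 (by norm_num) hm)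
      (fun m hm => by rw [hchi m hm, neg_zero]) hA.zero ?_
    intro m hm hm0
    have hmI : m ∈ Ioo (0 : ℝ) (1 / 5) := ⟨hm0, by linarith⟩
    obtain ⟨b1, b2, b3, b4⟩ := abs_le_of R hmI.2
    obtain ⟨a1, a2, a3, a4⟩ := R.sgn m hmI
    refine ⟨c1 m, b1.trans (by linarith), by linarith [(abs_le.mp a1).2],
      by linarith [(abs_le.mp a1).1], ?_, ?_⟩
    · rw [hleg m hmI]
      linarith [R.R1 m hmI]
    · rw [hleg m hmI, (hAx m hmI.2 (by linarith [(abs_le.mp b1).2])).1]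
      exact R.R2 m hmI
  · -- fast2
    refine hlaw_of hcos2 hf2.zero (fun m hm => Good.deriv_nonpos hf2 (by norm_num) hm)
      hA.zero (fun m hm => by rw [hchi m hm, neg_zero]) ?_
    intro m hm hm0
    obtain ⟨x, hx, hxm, hx0⟩ := hf2e m (by linarith)
    have hxI : x ∈ Ioo (0 : ℝ) (1 / 5) := ⟨hx0 hm0, hx⟩
    obtain ⟨b1, b2, b3, b4⟩ := abs_le_of R hxI.2
    obtain ⟨a1, a2, a3, a4⟩ := R.sgn x hxI
    have hlt : x + (c1 x + c2 x) < 19 / 100 := by rw [hxm]; linarith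
    have hd := hf2d x hxI hlt
    have hv := (hf2x x hx hlt).1
    rw [hxm] at hd hv
    refine ⟨c2 x, b2.trans (by linarith), ?_, ?_, ?_, ?_⟩
    · linarith [(abs_le.mp a1).1, hxI.1]
    · linarith [(abs_le.mp a1).1, (abs_le.mp a2).1, hxI.1]
    · have e : m - c2 x = x + c1 x := by linarith
      have hlt' : x + c1 x < 19 / 100 := by linarith [(abs_le.mp b2).1, (abs_le.mp b2).2]
      rw [hd, hv, e, (hAx x hx hlt').1]
      exact R.R3 x hxI
    · have e : m + c2 x = x + c1 x + 2 * c2 x := by linarith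
      rw [hd, hv, e]
      linarith [R.R4 x hxI]
  · -- slow2
    refine hlaw_of hcos2 hf2.zero (fun m hm => Good.deriv_nonpos hf2 (by norm_num) hm)
      hchi hS.zero ?_
    intro m hm hm0
    obtain ⟨x, hx, hxm, hx0⟩ := hf2e m (by linarith)
    have hxI : x ∈ Ioo (0 : ℝ) (1 / 5) := ⟨hx0 hm0, hx⟩
    obtain ⟨b1, b2, b3, b4⟩ := abs_le_of R hxI.2
    obtain ⟨a1, a2, a3, a4⟩ := R.sgn x hxI
    have hlt : x + (c1 x + c2 x) < 19 / 100 := by rw [hxm]; linarith
    have hd := hf2d x hxI hlt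
    have hv := (hf2x x hx hlt).1
    rw [hxm] at hd hv
    refine ⟨c3 x, b3.trans (by linarith), ?_, ?_, ?_, ?_⟩
    · linarith [(abs_le.mp a1).1, (abs_le.mp a2).1, (abs_le.mp a3).2, hxI.1]
    · linarith [(abs_le.mp a1).1, (abs_le.mp a2).1, (abs_le.mp a3).1, hxI.1]
    · have e : m - c3 x = x + c1 x + c2 x - c3 x := by linarith
      rw [hd, hv, e]
      exact R.S1 x hxI
    · have e : m + c3 x = x + (c1 x + c2 x + c3 x) := by linarith
      have hlt' : x + (c1 x + c2 x + c3 x) < 19 / 100 := by linarith [(abs_le.mp b3).2]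
      rw [hd, hv, e, (hSx x hx hlt').1]
      exact R.S2 x hxI
  · -- slow1
    refine hlaw_of hcos R.g1.zero (fun m hm => Good.deriv_nonpos R.g1 (by norm_num) hm)
      hS.zero hchi ?_
    intro m hm hm0
    obtain ⟨x, hxI, hxm⟩ := exists_ret R hc hc' (y := m) (by linarith) hm0
    have hmI : m ∈ Ioo (0 : ℝ) (1 / 5) := ⟨hm0, by linarith⟩
    obtain ⟨b1, b2, b3, b4⟩ := abs_le_of R hxI.2
    obtain ⟨a1, a2, a3, a4⟩ := R.sgn x hxI
    refine ⟨c4 x, b4.trans (by linarith), ?_, ?_, ?_, ?_⟩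
    · linarith [(abs_le.mp a1).1, (abs_le.mp a2).1, (abs_le.mp a3).1, hxI.1]
    · linarith [(abs_le.mp a1).1, (abs_le.mp a2).1, (abs_le.mp a3).1, (abs_le.mp a4).1, hxI.1]
    · have e : m - c4 x = x + (c1 x + c2 x + c3 x) := by linarith
      have hlt' : x + (c1 x + c2 x + c3 x) < 19 / 100 := by linarith [(abs_le.mp b4).1]
      rw [hleg m hmI, e, (hSx x hxI.2 hlt').1, ← hxm]
      exact R.S3 x hxI
    · have e : m + c4 x = x + c1 x + c2 x + c3 x + 2 * c4 x := by linarith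
      rw [hleg m hmI, e, ← hxm]
      exact R.S4 x hxI

end Pool.Agent.Helper58.Bil
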